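import Mathlib
import Pool.Agent.Q31.GLW.Stm

/-!
# GLW-RED
-/

set_option autoImplicit false

namespace Pool.Agent.Q82.GLW

open Pool.Agent.Q31.GLW

variable {F V : Type} [Field F] [AddCommGroup V] [Module F V]

lemma ev_append (h : V ≃ₗ[F] V) (L M : List ((V ≃ₗ[F] V) × Bool)) :
    ev h (L ++ M) = ev h M * ev h L := by
  induction L with
  | nil => simp [ev]
  | cons a L ih => simp only [List.cons_append, ev, ih, mul_assoc]

lemma act_act (h : V ≃ₗ[F] V) (e e' : Bool) (he : e ≠ e') : act h e * act h e' = 1 := by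
  cases e <;> cases e' <;> simp_all [act]

lemma sc_comm {k : V ≃ₗ[F] V} (hk : Sc k) (x : V ≃ₗ[F] V) : k * x = x * k := by
  obtain ⟨c, hc⟩ := hk
  ext v
  rw [LinearEquiv.mul_apply, LinearEquiv.mul_apply, hc, hc, map_smul]

lemma not_rd : ∀ L : List ((V ≃ₗ[F] V) × Bool), ¬ Rd L →
    ∃ L1 b c L2, L = L1 ++ b :: c :: L2 ∧ c.2 ≠ b.2 ∧ Sc c.1
  | [], h => absurd trivial h
  | [_], h => absurd trivial h
  | a :: b :: M, h => by
    by_cases h1 : b.2 = a.2 ∨ ¬ Sc b.1
    · have h2 : ¬ Rd (b :: M) := fun h3 => h ⟨h1, h3⟩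
      obtain ⟨L1, b', c, L2, e, h4, h5⟩ := not_rd (b :: M) h2
      exact ⟨a :: L1, b', c, L2, by rw [e]; rfl, h4, h5⟩
    · push Not at h1
      exact ⟨[], a, b, M, rfl, h1.1, h1.2⟩

lemma lastE_append (z : (V ≃ₗ[F] V) × Bool) : ∀ (M : List ((V ≃ₗ[F] V) × Bool)) (e : Bool),
    lastE e (M ++ [z]) = z.2
  | [], e => rfl
  | b :: M, e => lastE_append z M b.2

def Good (K : Subgroup (V ≃ₗ[F] V)) (h x : V ≃ₗ[F] V) : Prop :=
  (∃ k ∈ K, IsConj x k) ∨ ∃ (a : (V ≃ₗ[F] V) × Bool) (M : List ((V ≃ₗ[F] V) × Bool)),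
      a.1 ∈ K ∧ (∀ b ∈ M, b.1 ∈ K) ∧ Cyc a M ∧ IsConj x (ev h (a :: M))

lemma Good.conj {K : Subgroup (V ≃ₗ[F] V)} {h x y : V ≃ₗ[F] V} (hy : Good K h y) (hc : IsConj x y) :
    Good K h x := by
  rcases hy with ⟨k, hk, h1⟩ | ⟨a, M, h1, h2, h3, h4⟩
  · exact Or.inl ⟨k, hk, hc.trans h1⟩
  · exact Or.inr ⟨a, M, h1, h2, h3, hc.trans h4⟩

lemma key (K : Subgroup (V ≃ₗ[F] V)) (h : V ≃ₗ[F] V) : ∀ (n : ℕ) (L : List ((V ≃ₗ[F] V) × Bool)),
    L.length = n → (∀ b ∈ L, b.1 ∈ K) → ∀ k ∈ K, Good K h (k * ev h L) := by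
  intro n
  induction n using Nat.strong_induction_on with
  | _ n ih =>
    intro L hL hLK k hk
    match L, hL, hLK with
    | [], hL, hLK =>
      exact Or.inl ⟨k, hk, by rw [show ev h [] = 1 from rfl, mul_one]⟩
    | a :: M, hL, hLK =>
      have haK : a.1 ∈ K := hLK a (by simp)
      have hMK : ∀ b ∈ M, b.1 ∈ K := fun b hb => hLK b (by simp [hb])
      obtain ⟨a', ha'⟩ : ∃ a' : (V ≃ₗ[F] V) × Bool, a' = (a.1 * k, a.2) := ⟨_, rfl⟩
      have ha'K : a'.1 ∈ K := by rw [ha']; exact K.mul_mem haK hk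
      have hall : ∀ b ∈ a' :: M, b.1 ∈ K := by
        intro b hb
        rcases List.mem_cons.1 hb with rfl | hb
        · exact ha'K
        · exact hMK b hb
      have hc1 : IsConj (k * ev h (a :: M)) (ev h (a' :: M)) := by
        rw [isConj_iff]
        refine ⟨k⁻¹, ?_⟩
        rw [ha']
        simp only [ev]
        group
      refine Good.conj ?_ hc1
      by_cases hcyc : Cyc a' M
      · exact Or.inr ⟨a', M, ha'K, hMK, hcyc, IsConj.refl _⟩
      by_cases hrd : Rd (a' :: M)
      · have h1 : ¬ (a'.2 = lastE a'.2 M ∨ ¬ Sc a'.1) := fun h2 => hcyc ⟨hrd, h2⟩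
        push Not at h1
        obtain ⟨h1, hsc⟩ := h1
        rcases List.eq_nil_or_concat M with hM | ⟨M', z, hM⟩
        · rw [hM] at h1
          exact absurd rfl h1
        · rw [List.concat_eq_append] at hM
          subst hM
          rw [lastE_append] at h1
          have hz : z.1 ∈ K := hMK z (by simp)
          have hlen : M'.length < n := by
            rw [← hL]; simp
          have h2 := ih M'.length hlen M' rfl (fun b hb => hMK b (by simp [hb])) (a'.1 * z.1)
            (K.mul_mem ha'K hz)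
          refine Good.conj h2 ?_
          rw [isConj_iff]
          have e1 : ev h (a' :: (M' ++ [z])) = (act h z.2 * z.1) * ev h M' * (act h a'.2 * a'.1) := by
            rw [show ev h (a' :: (M' ++ [z])) = ev h (M' ++ [z]) * (act h a'.2 * a'.1) from rfl,
              ev_append]
            simp [ev]
          have e2 : (act h a'.2 * a'.1) * (act h z.2 * z.1) = a'.1 * z.1 := by
            calc (act h a'.2 * a'.1) * (act h z.2 * z.1)
                = (a'.1 * act h a'.2) * (act h z.2 * z.1) := by rw [sc_comm hsc]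
              _ = a'.1 * (act h a'.2 * act h z.2) * z.1 := by group
              _ = a'.1 * z.1 := by rw [act_act h _ _ h1, mul_one]
          refine ⟨(ev h M')⁻¹ * (act h z.2 * z.1)⁻¹, ?_⟩
          rw [e1, ← e2]
          group
      · obtain ⟨L1, b, c, L2, e, h1, hsc⟩ := not_rd (a' :: M) hrd
        have hb : b.1 ∈ K := hall b (by rw [e]; simp)
        have hcK : c.1 ∈ K := hall c (by rw [e]; simp)
        have hlen : (L2 ++ L1).length < n := by
          have h2 : (a' :: M).length = n := by rw [← hL]; simp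
          rw [e] at h2
          simp at h2 ⊢
          omega
        have h2 := ih (L2 ++ L1).length hlen (L2 ++ L1) rfl (fun d hd => hall d (by
          rw [e]
          simp only [List.mem_append, List.mem_cons] at hd ⊢
          tauto)) (c.1 * b.1) (K.mul_mem hcK hb)
        refine Good.conj h2 ?_
        rw [isConj_iff]
        have e1 : ev h (a' :: M) = ev h L2 * (act h c.2 * c.1) * (act h b.2 * b.1) * ev h L1 := by
          rw [e, ev_append]
          simp only [ev]
        have e2 : (act h c.2 * c.1) * (act h b.2 * b.1) = c.1 * b.1 := by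
          calc (act h c.2 * c.1) * (act h b.2 * b.1)
              = (c.1 * act h c.2) * (act h b.2 * b.1) := by rw [sc_comm hsc]
            _ = c.1 * (act h c.2 * act h b.2) * b.1 := by group
            _ = c.1 * b.1 := by rw [act_act h _ _ h1, mul_one]
        refine ⟨(ev h L2)⁻¹, ?_⟩
        rw [e1, ev_append, ← e2]
        group

lemma rep (K : Subgroup (V ≃ₗ[F] V)) (h x : V ≃ₗ[F] V)
    (hx : x ∈ Subgroup.closure ((K : Set (V ≃ₗ[F] V)) ∪ {h})) :
    ∃ k ∈ K, ∃ L : List ((V ≃ₗ[F] V) × Bool), (∀ b ∈ L, b.1 ∈ K) ∧ x = k * ev h L := by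
  induction hx using Subgroup.closure_induction_left with
  | one => exact ⟨1, K.one_mem, [], by simp, by simp [ev]⟩
  | mul_left s hs y hy ih =>
    obtain ⟨k, hk, L, hL, e⟩ := ih
    rcases hs with hs | hs
    · exact ⟨s * k, K.mul_mem hs hk, L, hL, by rw [e, mul_assoc]⟩
    · have hs' : s = h := hs
      refine ⟨1, K.one_mem, L ++ [(k, true)], ?_, ?_⟩
      · intro b hb
        rcases List.mem_append.1 hb with hb | hb
        · exact hL b hb
        · rw [List.mem_singleton.1 hb]; exact hk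
      · rw [ev_append, e, hs']
        simp [ev, act, mul_assoc]
  | inv_mul_cancel s hs y hy ih =>
    obtain ⟨k, hk, L, hL, e⟩ := ih
    rcases hs with hs | hs
    · exact ⟨s⁻¹ * k, K.mul_mem (K.inv_mem hs) hk, L, hL, by rw [e, mul_assoc]⟩
    · have hs' : s = h := hs
      refine ⟨1, K.one_mem, L ++ [(k, false)], ?_, ?_⟩
      · intro b hb
        rcases List.mem_append.1 hb with hb | hb
        · exact hL b hb
        · rw [List.mem_singleton.1 hb]; exact hk
      · rw [ev_append, e, hs']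
        simp [ev, act, mul_assoc]

/-- GLW-RED -/
theorem t_RED : S_RED := by
  intro F V _ _ _ K h x hx
  obtain ⟨k, hk, L, hL, e⟩ := rep K h x hx
  rw [e]
  exact key K h L.length L rfl hL k hk

end Pool.Agent.Q82.GLW
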